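import Pool.Agent.DN.Transfer
import Pool.Agent.DL.P.Rows

/-!
# DELTA (MP_d362fb_lc): from the forcing to the model
-/

set_option autoImplicit false

namespace Pool.Agent.H71.DL

/-- the forcing of note 5711 gives the model -/
theorem final_of (hG : Pool.Agent.DL.P.RowG) : DN.Final := by
  obtain ⟨P⟩ := hG
  letI := Pool.Agent.DL.P.posPre
  exact DN.transfer _ P.delta

end Pool.Agent.H71.DL
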