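import Pool.Agent.DL.P.PushC
import Pool.Agent.H84.DL.Perm
import Pool.Agent.H42.DL.Delta

/-!
# DELTA (MP_d362fb_lc): gluing two conditions at the root
-/

set_option autoImplicit false

namespace Pool.Agent.H71.DL

open H5.DL Pool.Agent.DL.P Pool.Agent.H84.DL

theorem not_edge_self {Lg : Prom → Prop} {a : Sys Prom} (ha : Valid Lg a) (p : ℕ) : ¬ a.E p p := by
  intro h
  obtain ⟨rk, -, h2, -⟩ := ha.forest p (ha.EJ p p h)
  exact h2 p p h rfl

/-- gluing two forests at a common component -/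
theorem forest_glue {J J' : Set ℕ} {E E' : ℕ → ℕ → Prop} {c : ℕ} (hc : c ∈ J) (hc' : c ∈ J')
    (hJ : ∀ j ∈ J, j ∈ J' → j = c) (hE : ∀ p q, E p q → p ∈ J ∧ q ∈ J)
    (hE' : ∀ p q, E' p q → p ∈ J' ∧ q ∈ J') (h : Forest J E) (h' : Forest J' E') :
    ∀ b ∈ J, ∃ rk : ℕ → ℕ, (∀ v ∈ J ∪ J', v ≠ b → rk b < rk v) ∧
      (∀ p q, E p q ∨ E' p q → rk p ≠ rk q) ∧
      ∀ v a a', (E v a ∨ E' v a) → (E v a' ∨ E' v a') → rk a < rk v → rk a' < rk v → a = a' := by
  classical
  intro b hb
  obtain ⟨rk, h1, h2, h3⟩ := h b hb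
  obtain ⟨rk', h1', h2', h3'⟩ := h' c hc'
  have hbc : rk b ≤ rk c := by
    by_cases hcb : c = b
    · rw [hcb]
    · exact (h1 c hc hcb).le
  obtain ⟨f, hf⟩ : ∃ f : ℕ → ℕ, f = fun v => if v ∈ J then rk v else rk c + 1 + rk' v :=
    ⟨_, rfl⟩
  have fJ : ∀ v ∈ J, f v = rk v := fun v hv => by rw [hf]; exact if_pos hv
  have fN : ∀ v, v ∉ J → f v = rk c + 1 + rk' v := fun v hv => by rw [hf]; exact if_neg hv
  -- comparison along edges of the second forest
  have key : ∀ p q, E' p q → (f p < f q ↔ rk' p < rk' q) ∧ f p ≠ f q := by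
    intro p q hpq
    obtain ⟨hp, hq⟩ := hE' p q hpq
    have hne := h2' p q hpq
    by_cases hpJ : p ∈ J
    · have hpc := hJ p hpJ hp
      by_cases hqJ : q ∈ J
      · exact absurd (by rw [hpc, hJ q hqJ hq]) hne
      · have hqc : q ≠ c := fun h => hqJ (h ▸ hc)
        have h4 := h1' q hq hqc
        rw [fJ p hpJ, fN q hqJ, hpc]
        exact ⟨⟨fun _ => h4, fun _ => by omega⟩, by omega⟩
    · by_cases hqJ : q ∈ J
      · have hqc := hJ q hqJ hq
        have hpc : p ≠ c := fun h => hpJ (h ▸ hc)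
        have h4 := h1' p hp hpc
        rw [fJ q hqJ, fN p hpJ, hqc]
        exact ⟨⟨fun _ => by omega, fun _ => by omega⟩, by omega⟩
      · rw [fN p hpJ, fN q hqJ]
        exact ⟨⟨fun _ => by omega, fun _ => by omega⟩, by omega⟩
  have keyE : ∀ p q, E p q → (f p < f q ↔ rk p < rk q) ∧ f p ≠ f q := by
    intro p q hpq
    obtain ⟨hp, hq⟩ := hE p q hpq
    rw [fJ p hp, fJ q hq]
    exact ⟨Iff.rfl, h2 p q hpq⟩
  refine ⟨f, ?_, ?_, ?_⟩
  · intro v hv hvb
    rw [fJ b hb]
    by_cases hvJ : v ∈ J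
    · rw [fJ v hvJ]
      exact h1 v hvJ hvb
    · rw [fN v hvJ]
      omega
  · rintro p q (hpq | hpq)
    · exact (keyE p q hpq).2
    · exact (key p q hpq).2
  · rintro v a a' hva hva' ha ha'
    -- the direction of the edges is the same in both ranks
    have hlt : ∀ v a, E' v a → f a < f v → rk' a < rk' v := by
      intro v a hva ha
      by_contra hcon
      have h4 := (key v a hva).1.2 (lt_of_le_of_ne (not_lt.1 hcon) (h2' v a hva))
      exact absurd ha (not_lt.2 h4.le)
    have hltE : ∀ v a, E v a → f a < f v → rk a < rk v := by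
      intro v a hva ha
      by_contra hcon
      have h4 := (keyE v a hva).1.2 (lt_of_le_of_ne (not_lt.1 hcon) (h2 v a hva))
      exact absurd ha (not_lt.2 h4.le)
    -- the common component has no smaller neighbour in the second forest
    have hmix : ∀ v a a', E v a → E' v a' → f a' < f v → False := by
      intro v a a' hva hva' ha'
      have hvc := hJ v (hE v a hva).1 (hE' v a' hva').1
      have h4 := hlt v a' hva' ha'
      by_cases hac : a' = c
      · rw [hvc, hac] at h4
        exact lt_irrefl _ h4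
      · have h5 := h1' a' (hE' v a' hva').2 hac
        rw [hvc] at h4
        exact absurd h5 (not_lt.2 h4.le)
    rcases hva with hva | hva <;> rcases hva' with hva' | hva'
    · exact h3 v a a' hva hva' (hltE v a hva ha) (hltE v a' hva' ha')
    · exact (hmix v a a' hva hva' ha').elim
    · exact (hmix v a' a hva' hva ha).elim
    · exact h3' v a a' hva hva' (hlt v a hva ha) (hlt v a' hva' ha')

open Classical in
/-- the union of two systems with a common root -/
noncomputable def glue (a b : Sys Prom) : Sys Prom where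
  n := a.n
  rt := a.rt
  J := a.J ∪ b.J
  E := fun p q => a.E p q ∨ b.E p q
  K := fun j => if j ∈ a.J then a.K j else b.K j
  Z := fun p q => if a.E p q then a.Z p q else b.Z p q
  X := fun j => a.X j ∪ b.X j

/-- two systems which can be glued -/
structure GOK (a b : Sys Prom) : Prop where
  n : a.n = b.n
  rt : a.rt = b.rt
  J : ∀ j ∈ a.J, j ∈ b.J → j = a.rt
  X : a.X a.rt = b.X a.rt
  K : a.K a.rt = b.K a.rt

section

variable {Lg : Prom → Prop} {a b : Sys Prom}

theorem GOK.E (ha : Valid Lg a) (hb : Valid Lg b) (h : GOK a b) {p q : ℕ} (h1 : a.E p q) :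
    ¬ b.E p q := by
  intro h2
  have hp := h.J p (ha.EJ p q h1) (hb.EJ p q h2)
  have hq := h.J q (ha.EJ q p (ha.Es p q h1)) (hb.EJ q p (hb.Es p q h2))
  rw [hp, hq] at h1
  exact not_edge_self ha _ h1

theorem glue_Ka (p : ℕ) (hp : p ∈ a.J) : (glue a b).K p = a.K p := if_pos hp

theorem glue_Kb (h : GOK a b) (p : ℕ) (hp : p ∈ b.J) : (glue a b).K p = b.K p := by
  by_cases hpa : p ∈ a.J
  · rw [glue_Ka p hpa, h.J p hpa hp, h.K]
  · exact if_neg hpa

theorem glue_Za (p q : ℕ) (hE : a.E p q) : (glue a b).Z p q = a.Z p q := if_pos hE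

theorem glue_Zn (p q : ℕ) (hE : ¬ a.E p q) : (glue a b).Z p q = b.Z p q := if_neg hE

theorem glue_Zb (ha : Valid Lg a) (hb : Valid Lg b) (h : GOK a b) (p q : ℕ) (hE : b.E p q) :
    (glue a b).Z p q = b.Z p q := if_neg (fun h' => h.E ha hb h' hE)

theorem glue_Xa (ha : Valid Lg a) (hb : Valid Lg b) (h : GOK a b) (p : ℕ) (hp : p ∈ a.J) :
    (glue a b).X p = a.X p := by
  change a.X p ∪ b.X p = a.X p
  by_cases hpb : p ∈ b.J
  · rw [h.J p hp hpb, h.X, Set.union_self]
  · rw [hb.nX p hpb, Set.union_empty]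

theorem glue_Xb (ha : Valid Lg a) (hb : Valid Lg b) (h : GOK a b) (p : ℕ) (hp : p ∈ b.J) :
    (glue a b).X p = b.X p := by
  change a.X p ∪ b.X p = b.X p
  by_cases hpa : p ∈ a.J
  · rw [h.J p hpa hp, h.X, Set.union_self]
  · rw [ha.nX p hpa, Set.empty_union]

/-- the glued system is valid -/
theorem glue_valid (ha : Valid Lg a) (hb : Valid Lg b) (h : GOK a b) : Valid Lg (glue a b) where
  fin := ha.fin.union hb.fin
  rt := Or.inl ha.rt
  Es := by
    rintro p q (h1 | h1)
    · exact Or.inl (ha.Es p q h1)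
    · exact Or.inr (hb.Es p q h1)
  EJ := by
    rintro p q (h1 | h1)
    · exact Or.inl (ha.EJ p q h1)
    · exact Or.inr (hb.EJ p q h1)
  forest := by
    have hEa : ∀ p q, a.E p q → p ∈ a.J ∧ q ∈ a.J := fun p q h1 =>
      ⟨ha.EJ p q h1, ha.EJ q p (ha.Es p q h1)⟩
    have hEb : ∀ p q, b.E p q → p ∈ b.J ∧ q ∈ b.J := fun p q h1 =>
      ⟨hb.EJ p q h1, hb.EJ q p (hb.Es p q h1)⟩
    have hrb : a.rt ∈ b.J := h.rt ▸ hb.rt
    rintro c (hc | hc)
    · exact forest_glue ha.rt hrb h.J hEa hEb ha.forest hb.forest c hc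
    · obtain ⟨rk, h1, h2, h3⟩ := forest_glue hrb ha.rt (fun j hj hj' => h.J j hj' hj) hEb hEa
        hb.forest ha.forest c hc
      refine ⟨rk, fun v hv => h1 v (Or.symm hv), fun p q hpq => h2 p q (Or.symm hpq),
        fun v x x' hx hx' => h3 v x x' (Or.symm hx) (Or.symm hx')⟩
  low := by
    rintro j (hj | hj)
    · rw [glue_Ka j hj]; exact ha.low j hj
    · rw [glue_Kb h j hj]; exact hb.low j hj
  symZ := by
    intro p q
    by_cases h1 : a.E p q
    · rw [glue_Za p q h1, glue_Za q p (ha.Es p q h1), ha.symZ]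
    · have h2 : ¬ a.E q p := fun h' => h1 (ha.Es q p h')
      rw [glue_Zn p q h1, glue_Zn q p h2, hb.symZ]
  good := by
    rintro p q (h1 | h1)
    · rw [glue_Za p q h1]; exact ha.good p q h1
    · rw [glue_Zb ha hb h p q h1]; exact hb.good p q h1
  nX := by
    intro j hj
    change a.X j ∪ b.X j = ∅
    rw [ha.nX j (fun h' => hj (Or.inl h')), hb.nX j (fun h' => hj (Or.inr h')),
      Set.union_empty]
  nZ := by
    intro p q hpq
    rw [glue_Zn p q (fun h' => hpq (Or.inl h')), hb.nZ p q (fun h' => hpq (Or.inr h'))]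
  val := by
    rintro j (hj | hj)
    · rw [glue_Ka j hj, glue_Xa ha hb h j hj]; exact ha.val j hj
    · rw [glue_Kb h j hj, glue_Xb ha hb h j hj]
      have h1 := hb.val j hj
      rw [← h.n] at h1
      exact h1
  adm := by
    rintro p q (h1 | h1)
    · rw [glue_Za p q h1, glue_Ka p (ha.EJ p q h1), glue_Ka q (ha.EJ q p (ha.Es p q h1))]
      exact ha.adm p q h1
    · rw [glue_Zb ha hb h p q h1, glue_Kb h p (hb.EJ p q h1),
        glue_Kb h q (hb.EJ q p (hb.Es p q h1))]
      exact hb.adm p q h1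
  sh := by
    rintro p q (h1 | h1)
    · rw [glue_Za p q h1, glue_Xa ha hb h p (ha.EJ p q h1),
        glue_Xa ha hb h q (ha.EJ q p (ha.Es p q h1))]
      exact ha.sh p q h1
    · rw [glue_Zb ha hb h p q h1, glue_Xb ha hb h p (hb.EJ p q h1),
        glue_Xb ha hb h q (hb.EJ q p (hb.Es p q h1))]
      exact hb.sh p q h1

theorem glue_ext_a (ha : Valid Lg a) (hb : Valid Lg b) (h : GOK a b) : Ext a (glue a b) where
  n := rfl
  rt := rfl
  J := fun j hj => Or.inl hj
  E := by
    intro p hp q hq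
    constructor
    · rintro (h1 | h1)
      · exact h1
      · have h2 := h.J p hp (hb.EJ p q h1)
        have h3 := h.J q hq (hb.EJ q p (hb.Es p q h1))
        rw [h2, h3] at h1
        exact absurd h1 (not_edge_self hb _)
    · exact Or.inl
  K := fun j hj => glue_Ka j hj
  Z := fun p q h1 => glue_Za p q h1
  X := by
    intro j hj
    rw [glue_Xa ha hb h j hj]
    exact ⟨subset_rfl, fun x m v _ h1 => h1⟩
  rel := by
    intro j hj φ _ m h1 h2
    rw [glue_Xa ha hb h j hj] at h1
    exact absurd h1 h2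

theorem glue_ext_b (ha : Valid Lg a) (hb : Valid Lg b) (h : GOK a b) : Ext b (glue a b) where
  n := h.n
  rt := h.rt
  J := fun j hj => Or.inr hj
  E := by
    intro p hp q hq
    constructor
    · rintro (h1 | h1)
      · have h2 := h.J p (ha.EJ p q h1) hp
        have h3 := h.J q (ha.EJ q p (ha.Es p q h1)) hq
        rw [h2, h3] at h1
        exact absurd h1 (not_edge_self ha _)
      · exact h1
    · exact Or.inr
  K := fun j hj => glue_Kb h j hj
  Z := fun p q h1 => glue_Zb ha hb h p q h1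
  X := by
    intro j hj
    rw [glue_Xb ha hb h j hj]
    exact ⟨subset_rfl, fun x m v _ h1 => h1⟩
  rel := by
    intro j hj φ _ m h1 h2
    rw [glue_Xb ha hb h j hj] at h1
    exact absurd h1 h2

end

/-- the root content of one condition may be added to the other one -/
theorem addable_of_agree {a b : Sys Prom} (ha : IsCond a) (hb : IsCond b) (hrt : a.rt = b.rt)
    (h : Agree a b) : Addable Legal a a.rt (b.X b.rt) := by
  have hv := hb.val.val b.rt hb.val.rt
  refine ⟨hv.fin, ?_, ?_, ?_, ?_, hv.fn, ?_⟩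
  · intro x m v hf
    have hbl := hv.itb x m v hf
    by_cases hx : .nd x ∈ a.X a.rt
    · exact Or.inl ((h.it x m v hx (hv.blx x m hbl.1)).2 hf)
    · exact Or.inr ⟨hx, hbl.1, by rw [h.n]; exact hbl.2⟩
  · exact fun x m hf => Or.inr (hv.blx x m hf)
  · exact fun x y hf => ⟨Or.inr (hv.dsx x y hf).1, Or.inr (hv.dsx x y hf).2⟩
  · intro φ m hf
    by_cases hx : .pr φ ∈ a.X a.rt
    · exact Or.inl ((h.rl φ m hx (hv.rlx φ m hf)).2 hf)
    · exact Or.inr ⟨hx, hv.rlx φ m hf⟩
  · intro φ hf
    refine ⟨(hv.leg φ hf).1, ?_⟩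
    rw [ha.top]
    trivial

/-- gluing two conditions which are disjoint except for the common root -/
theorem compat_of_disj (a b : Pos) (hrt : a.1.rt = b.1.rt)
    (hJ : ∀ j ∈ a.1.J, j ∈ b.1.J → j = a.1.rt) (h : Agree a.1 b.1) : Compat a b := by
  have h1 := addable_of_agree a.2 b.2 hrt h
  have h2 := addable_of_agree b.2 a.2 hrt.symm h.symm
  have ha1 := a.2.push a.2.val.rt h1
  have hb1 := b.2.push b.2.val.rt h2
  have hG : GOK (a.1.push a.1.rt (b.1.X b.1.rt)) (b.1.push b.1.rt (a.1.X a.1.rt)) := by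
    refine ⟨h.n, hrt, hJ, ?_, ?_⟩
    · change (a.1.push a.1.rt (b.1.X b.1.rt)).X a.1.rt =
        (b.1.push b.1.rt (a.1.X a.1.rt)).X a.1.rt
      ext f
      rw [mem_push_self]
      rw [hrt, mem_push_self]
      exact or_comm
    · change a.1.K a.1.rt = b.1.K a.1.rt
      rw [a.2.top, hrt, b.2.top]
  have hv := glue_valid ha1.val hb1.val hG
  have hc : IsCond (glue (a.1.push a.1.rt (b.1.X b.1.rt)) (b.1.push b.1.rt (a.1.X a.1.rt))) := by
    refine ⟨hv, ?_, ?_⟩
    · exact (glue_Ka _ ha1.val.rt).trans ha1.top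
    · rintro j (hj | hj) hne
      · rw [glue_Ka j hj]
        exact ha1.bdd j hj hne
      · rw [glue_Kb hG j hj]
        refine hb1.bdd j hj ?_
        intro h'
        exact hne (h'.trans hrt.symm)
  refine ⟨⟨_, hc⟩, ?_, ?_⟩
  · refine Pool.Agent.H84.DL.stronger_of_steps (Relation.ReflTransGen.tail
      (Relation.ReflTransGen.single (push_step a.2.val a.2.val.rt h1)) ?_)
    exact ⟨hv, Or.inl (glue_ext_a ha1.val hb1.val hG)⟩
  · refine Pool.Agent.H84.DL.stronger_of_steps (Relation.ReflTransGen.tail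
      (Relation.ReflTransGen.single (push_step b.2.val b.2.val.rt h2)) ?_)
    exact ⟨hv, Or.inl (glue_ext_b ha1.val hb1.val hG)⟩

/-- moving a finite set away, with one prescribed value -/
theorem exists_perm (A B : Set ℕ) (hA : A.Finite) (hB : B.Finite) (a b : ℕ) :
    ∃ σ : Equiv.Perm ℕ, σ b = a ∧ ∀ j ∈ B, σ j ∈ A → j = b := by
  classical
  -- after the transposition
  obtain ⟨B', hB'⟩ : ∃ B' : Set ℕ, B' = {j | Equiv.swap a b j ∈ B ∧ j ≠ a} := ⟨_, rfl⟩
  have hfin : B'.Finite := by
    have h1 : B' ⊆ Equiv.swap a b '' B := by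
      intro j hj
      rw [hB'] at hj
      exact ⟨_, hj.1, by simp⟩
    exact (hB.image _).subset h1
  obtain ⟨N, hN⟩ := ((hA.union hfin).union (Set.finite_singleton a)).bddAbove
  have hNA : ∀ j ∈ A, j ≤ N := fun j hj => hN (Or.inl (Or.inl hj))
  have hNB : ∀ j ∈ B', j ≤ N := fun j hj => hN (Or.inl (Or.inr hj))
  have hNa : a ≤ N := hN (Or.inr rfl)
  -- the shift of `B'`
  let f : ℕ → ℕ := fun j => if j ∈ B' then j + (N + 1) else
    if N + 1 ≤ j ∧ j - (N + 1) ∈ B' then j - (N + 1) else j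
  have hf : Function.Involutive f := by
    intro j
    by_cases h1 : j ∈ B'
    · have h2 : j + (N + 1) ∉ B' := fun h => by have := hNB _ h; omega
      have h3 : f j = j + (N + 1) := if_pos h1
      rw [h3]
      change (if j + (N + 1) ∈ B' then _ else _) = j
      rw [if_neg h2, if_pos ⟨by omega, by rwa [Nat.add_sub_cancel]⟩]
      omega
    · by_cases h2 : N + 1 ≤ j ∧ j - (N + 1) ∈ B'
      · have h3 : f j = j - (N + 1) := by
          change (if j ∈ B' then _ else _) = _
          rw [if_neg h1, if_pos h2]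
        rw [h3]
        change (if j - (N + 1) ∈ B' then _ else _) = j
        rw [if_pos h2.2]
        omega
      · have h3 : f j = j := by
          change (if j ∈ B' then _ else _) = _
          rw [if_neg h1, if_neg h2]
        rw [h3, h3]
  have hfa : f a = a := by
    have h1 : a ∉ B' := fun h => by rw [hB'] at h; exact h.2 rfl
    change (if a ∈ B' then _ else _) = _
    rw [if_neg h1, if_neg (fun h => by omega)]
  refine ⟨(Equiv.swap a b).trans hf.toPerm, ?_, ?_⟩
  · change f (Equiv.swap a b b) = a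
    rw [Equiv.swap_apply_right, hfa]
  · intro j hj hA'
    change f (Equiv.swap a b j) ∈ A at hA'
    by_contra hne
    have h1 : Equiv.swap a b j ∈ B' := by
      rw [hB']
      refine ⟨by simpa using hj, fun h => hne ?_⟩
      have h2 := congrArg (Equiv.swap a b) h
      simpa using h2
    have h2 : f (Equiv.swap a b j) = Equiv.swap a b j + (N + 1) := if_pos h1
    rw [h2] at hA'
    have := hNA _ hA'
    omega

/-- the gluing lemma -/
theorem glue_all : Glue := by
  intro a b h
  obtain ⟨σ, h1, h2⟩ := exists_perm a.1.J b.1.J a.2.val.fin b.2.val.fin a.1.rt b.1.rt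
  have h3 : Compat a (renPos σ b) := by
    refine compat_of_disj a (renPos σ b) h1.symm ?_ ?_
    · intro j hj hj'
      have h4 : σ.symm j ∈ b.1.J := hj'
      have h5 := h2 _ h4 (by simpa using hj)
      rw [← h1, ← h5, Equiv.apply_symm_apply]
    · have hX : (renPos σ b).1.X (renPos σ b).1.rt = b.1.X b.1.rt := by
        change b.1.X (σ.symm (σ b.1.rt)) = _
        rw [Equiv.symm_apply_apply]
      refine ⟨h.n, ?_, ?_⟩
      · rw [hX]; exact h.it
      · rw [hX]; exact h.rl
  obtain ⟨s, hs1, hs2⟩ := h3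
  exact ⟨s, hs1, stronger_trans hs2 (stronger_ren σ b)⟩

end Pool.Agent.H71.DL
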